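import Pool.Agent.V11139.Paw

/-!
# Two sets each way do not make graphs chromatically related

`F` is the paw and `G` is the disjoint union of the paw, `K₇` and the shift graph on 65 points.
-/

set_option autoImplicit false

namespace Pool.Agent.Results.MP_3e1815_co.PawCounterexample

open Pool.Agent.V11139.Paw

/-- **Answer: no.** It is not true that finite graphs `F`, `G` with at least two vertices each and
with `χ(F : -G) ≤ 2` and `χ(G : -F) ≤ 2` are always chromatically related. -/
theorem result : ¬ ∀ (U V : Type) [Finite U] [Finite V] [Nontrivial U] [Nontrivial V]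
    (F : SimpleGraph U) (G : SimpleGraph V),
    FreeChromaticNumberLE F G 2 → FreeChromaticNumberLE G F 2 →
      ∀ n : ℕ, 1 ≤ n → RelatedAt n F G := by
  intro h
  haveI : Nontrivial ((Fin 4 ⊕ Fin 7) ⊕ Pairs 65) :=
    ⟨⟨Sum.inl (Sum.inl 0), Sum.inl (Sum.inl 1), by simp⟩⟩
  refine not_related_three (h _ _ paw big ?_ big_paw 3 (by norm_num))
  obtain ⟨c, hc⟩ := paw_big
  refine ⟨fun _ => 0, fun i => ⟨fun g => ?_⟩⟩
  have hcard := Fintype.card_le_of_injective (fun j : Fin 7 => (g (Sum.inl (Sum.inr j))).1)
    (fun a b hab => by
      have h1 := g.injective (Subtype.ext hab)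
      exact Sum.inr_injective (Sum.inl_injective h1))
  simp at hcard

end Pool.Agent.Results.MP_3e1815_co.PawCounterexample
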